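import Mathlib

set_option autoImplicit false

namespace Pool.Agent.Results.MP_08c285_gt.Regular

open Set Cardinal

universe u

variable {G : Type u} [Group G]

/-- The entourages of the ballean given by the subsets of cardinality less than `#G`. -/
def Ent (E : Set (G × G)) : Prop :=
  ∃ A : Set G, #A < #G ∧ 1 ∈ A ∧ A⁻¹ = A ∧ ∀ p ∈ E, ∃ a ∈ A, p.2 = p.1 * a

/-- `E[S]`. -/
def nb (E : Set (G × G)) (S : Set G) : Set G := {y | ∃ x ∈ S, (x, y) ∈ E}

/-- Asymptotically disjoint sets. -/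
def AsDisj (P Q : Set G) : Prop := ∀ E, Ent E → #(nb E P ∩ nb E Q : Set G) < #G

/-- Asymptotic neighbourhoods. -/
def AsNhd (U P : Set G) : Prop := ∀ E, Ent E → #(nb E P \ U : Set G) < #G

/-- Normality of the ballean. -/
def Normal (G : Type u) [Group G] : Prop :=
  ∀ P Q : Set G, AsDisj P Q → ∃ U V, AsNhd U P ∧ AsNhd V Q ∧ AsDisj U V

lemma rec' (h : ℵ₀ < #G) (c : (#G).ord.ToType → Set G) (hc : ∀ t, #(c t) < #G) :
    ∃ x : (#G).ord.ToType → G, ∀ t, x t ∉ Subgroup.closure (c t ∪ x '' Iio t) := by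
  have ex : ∀ S : Set G, #S < #G → ∃ g, g ∉ Subgroup.closure S := fun S hS => by
    by_contra! n
    have : Function.Surjective (FreeGroup.lift (Subtype.val : ↥(insert 1 S) → G)) := fun g => by
      have := Subgroup.closure_mono (subset_insert 1 S) (n g)
      rwa [← Subtype.range_coe (s := insert 1 S), ← FreeGroup.range_lift_eq_closure] at this
    refine (mk_le_of_surjective this).not_gt ?_
    rw [mk_freeGroup]
    exact max_lt (mk_insert_le.trans_lt (add_lt_of_lt h.le hS (one_lt_aleph0.trans h))) h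
  choose! s hs using ex
  let x : (#G).ord.ToType → G := WellFoundedLT.fix fun t p => s (c t ∪ range fun r : Iio t => p r r.2)
  refine ⟨x, fun t => ?_⟩
  rw [show x t = s (c t ∪ x '' Iio t) by rw [image_eq_range]; exact WellFoundedLT.fix_eq _ t]
  exact hs _ ((mk_union_le _ _).trans_lt (add_lt_of_lt h.le (hc t)
    (mk_image_le.trans_lt (mk_Iio_toType_ord_lt t))))

lemma sub {K : Type u} [LinearOrder K] (H : K → Subgroup G) (a b : K → G)
    (ha : ∀ s t, s < t → a s ∈ H t) (hb : ∀ s t, s < t → b s ∈ H t) (hn : ∀ t, b t ∉ H t) (g : G) :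
    {t | ∃ s < t, b t = a s * g}.Finite := by
  have : ∀ s t s' t', s < t → s' < t' → b t = a s * g → b t' = a s' * g → ¬ t < t' :=
    fun s t s' t' h h' e e' l => hn t' (by
      rw [e', ← inv_mul_eq_iff_eq_mul.2 e]
      exact mul_mem (ha _ _ h') (mul_mem (inv_mem (ha _ _ (h.trans l))) (hb _ _ l)))
  exact Set.Subsingleton.finite fun t ⟨s, h, e⟩ t' ⟨s', h', e'⟩ =>
    (not_lt.1 (this _ _ _ _ h' h e' e)).antisymm (not_lt.1 (this _ _ _ _ h h' e e'))

lemma unif (h : (#G).IsSingular) {U P : Set G} (hU : AsNhd U P) :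
    ∃ μ < #G, ∀ g, #((· * g) '' P \ U : Set G) ≤ μ := by
  by_contra! n
  obtain ⟨ι, f, hf, hι⟩ := Ordinal.exists_lsub_cof (#G).ord
  choose g hg using fun i => n (f i).card (lt_ord.1 (hf ▸ Ordinal.lt_lsub f i))
  have r : #(range g) < #G := mk_range_le.trans_lt (hι ▸ h.cof_ord_lt)
  have := hU {p | ∃ a ∈ insert 1 (range g ∪ (range g)⁻¹), p.2 = p.1 * a}
    ⟨_, mk_insert_le.trans_lt (add_lt_of_lt h.1 ((mk_union_le _ _).trans_lt
      (add_lt_of_lt h.1 r (by simpa using r))) (one_lt_aleph0.trans_le h.1)), mem_insert _ _,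
      by simp [union_comm], fun _ h => h⟩
  obtain ⟨i, hi⟩ := Ordinal.lt_lsub_iff.1 ((ord_lt_ord.2 this).trans_eq hf.symm)
  refine ((ord_le.1 hi).trans_lt (hg i)).not_ge (mk_le_mk_of_subset (diff_subset_diff_left ?_))
  rintro _ ⟨p, hp, rfl⟩
  exact ⟨p, hp, g i, .inr (.inl ⟨i, rfl⟩), rfl⟩

/-- If the ballean of small subsets of an infinite group is normal, the cardinality of the group
is regular. -/
theorem result (G : Type u) [Group G] [Infinite G] (h : Normal G) : (#G).IsRegular := by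
  have a0 := aleph0_le_mk G
  refine .of_not_isSingular a0 fun sg => ?_
  have a1 : ℵ₀ < #G := a0.lt_of_ne fun e => not_isSingular_aleph0 (e ▸ sg)
  obtain ⟨y, hy⟩ := rec' a1 (fun _ => ∅) fun _ => by simpa using sg.pos
  obtain ⟨e⟩ : Nonempty ((#G).ord.ToType ≃ (#G).ord.ToType × (#G).ord.ToType) :=
    Cardinal.eq.1 (by simp [mul_eq_self a0])
  have ii : ∀ t : (#G).ord.ToType, #(Iic t) < #G := fun t => by
    rw [← Iio_insert]
    exact mk_insert_le.trans_lt (add_lt_of_lt a0 (mk_Iio_toType_ord_lt t) (one_lt_aleph0.trans a1))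
  obtain ⟨x, hx⟩ := rec' a1 (fun t => (fun s => y (e s).1) '' Iic t ∪ (fun s => y (e s).2) '' Iic t)
    fun t => (mk_union_le _ _).trans_lt (add_lt_of_lt a0 (mk_image_le.trans_lt (ii t))
      (mk_image_le.trans_lt (ii t)))
  have inj : ∀ (z : (#G).ord.ToType → G) (c : _ → Set G),
      (∀ t, z t ∉ Subgroup.closure (c t ∪ z '' Iio t)) → Function.Injective z := fun z c hz =>
    Function.Injective.of_lt_imp_ne fun s t l k => hz t (Subgroup.subset_closure (.inr ⟨s, l, k⟩))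
  have iy := inj y _ hy
  have ix := inj x _ hx
  generalize hH : (fun t => Subgroup.closure (((fun s => y (e s).1) '' Iic t ∪
    (fun s => y (e s).2) '' Iic t) ∪ x '' Iio t)) = H
  have m0 : ∀ s t, s < t → x s ∈ H t := fun s t l =>
    hH ▸ Subgroup.subset_closure (.inr ⟨s, l, rfl⟩)
  have m1 : ∀ s t, s ≤ t → y (e s).1 ∈ H t := fun s t l =>
    hH ▸ Subgroup.subset_closure (.inl (.inl ⟨s, l, rfl⟩))
  have m2 : ∀ s t, s ≤ t → y (e s).2 ∈ H t := fun s t l =>
    hH ▸ Subgroup.subset_closure (.inl (.inr ⟨s, l, rfl⟩))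
  have n0 : ∀ t, x t ∉ H t := fun t => hH ▸ hx t
  let p := fun t => x t * (y (e t).2)⁻¹
  let q := fun t => x t * (y (e t).1)⁻¹
  have mp : ∀ s t, s < t → p s ∈ H t := fun s t l => mul_mem (m0 s t l) (inv_mem (m2 s t l.le))
  have mq : ∀ s t, s < t → q s ∈ H t := fun s t l => mul_mem (m0 s t l) (inv_mem (m1 s t l.le))
  have np : ∀ t, p t ∉ H t := fun t k => n0 t ((mul_mem_cancel_right (inv_mem (m2 t t le_rfl))).1 k)
  have nq : ∀ t, q t ∉ H t := fun t k => n0 t ((mul_mem_cancel_right (inv_mem (m1 t t le_rfl))).1 k)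
  have fy := sub (fun t => Subgroup.closure (∅ ∪ y '' Iio t)) (fun t => (y t)⁻¹) (fun t => (y t)⁻¹)
    (fun s t l => inv_mem (Subgroup.subset_closure (.inr ⟨s, l, rfl⟩)))
    (fun s t l => inv_mem (Subgroup.subset_closure (.inr ⟨s, l, rfl⟩)))
    fun t k => hy t (inv_mem_iff.1 k)
  let T := {t | (e t).1 ≠ (e t).2}
  have fin : ∀ g, (p '' T ∩ (· * g) '' (q '' T)).Finite := fun g => by
    have f1 : {t | (e t).1 < (e t).2 ∧ (y (e t).2)⁻¹ = (y (e t).1)⁻¹ * g}.Finite :=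
      .of_injOn (f := fun t => (e t).2) (fun t k => by exact ⟨_, k.1, k.2⟩) (fun s hs t ht k =>
        e.injective (Prod.ext (iy (by
          simpa using hs.2.symm.trans ((congrArg (fun j => (y j)⁻¹) k).trans ht.2))) k)) (fy g)
    have f2 : {t | (e t).2 < (e t).1 ∧ (y (e t).1)⁻¹ = (y (e t).2)⁻¹ * g⁻¹}.Finite :=
      .of_injOn (f := fun t => (e t).1) (fun t k => by exact ⟨_, k.1, k.2⟩) (fun s hs t ht k =>
        e.injective (Prod.ext k (iy (by
          simpa using hs.2.symm.trans ((congrArg (fun j => (y j)⁻¹) k).trans ht.2))))) (fy g⁻¹)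
    refine ((((sub H q p mq mp np g).union (f1.union f2)).image p).union
      (((sub H p q mp mq nq g⁻¹).image q).image (· * g))).subset ?_
    rintro _ ⟨⟨t, ht, rfl⟩, _, ⟨s, -, rfl⟩, k⟩
    rcases lt_trichotomy s t with l | rfl | l
    · exact .inl ⟨t, .inl ⟨s, l, k.symm⟩, rfl⟩
    · have k' : (y (e s).1)⁻¹ * g = (y (e s).2)⁻¹ := by simpa [p, q, mul_assoc] using k
      exact .inl ⟨s, .inr ((lt_or_gt_of_ne ht).imp (fun l => ⟨l, k'.symm⟩)
        fun l => ⟨l, by simp [← k']⟩), rfl⟩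
    · exact .inr ⟨_, ⟨s, ⟨t, l, by simp [← k]⟩, rfl⟩, k⟩
  obtain ⟨U, V, hU, hV, hUV⟩ := h (p '' T) (q '' T) fun E ⟨A, hA, _, _, hE⟩ => by
    refine lt_of_le_of_lt (mk_le_mk_of_subset (t := ⋃ a : A × A,
      (· * a.1.1) '' (p '' T ∩ (· * (a.2.1 * a.1.1⁻¹)) '' (q '' T))) ?_) ((mk_iUnion_le _).trans_lt
      (mul_lt_of_lt a0 (by simpa using mul_lt_of_lt a0 hA hA)
        ((ciSup_le' fun a => ((fin _).image _).lt_aleph0.le).trans_lt a1)))
    rintro z ⟨⟨u, hu, k⟩, v, hv, l⟩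
    obtain ⟨a, ha, ea⟩ := hE _ k
    obtain ⟨b, hb, eb⟩ := hE _ l
    exact mem_iUnion.2 ⟨(⟨a, ha⟩, ⟨b, hb⟩), u, ⟨hu, v, hv, by
      simp only at ea eb ⊢; rw [← mul_assoc, ← eb, ea, mul_inv_cancel_right]⟩, ea.symm⟩
  obtain ⟨μ, hμ, hU⟩ := unif sg hU
  obtain ⟨ν, hν, hV⟩ := unif sg hV
  have hW : #(U ∩ V : Set G) < #G := by
    simpa [nb] using hUV {p | p.2 = p.1} ⟨{1}, by simpa using one_lt_aleph0.trans a1, rfl, by simp,
      fun _ h => ⟨1, rfl, by simpa using h⟩⟩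
  have lim := sg.isSuccLimit.succ_lt hμ
  obtain ⟨I, hI⟩ := le_mk_iff_exists_set.1 (lim.le.trans_eq (mk_ord_toType _).symm)
  have xi : Function.Injective fun a => x (e.symm a) := ix.comp e.symm.injective
  have c0 : ∀ i, #{j | i ≠ j ∧ x (e.symm (i, j)) ∉ V} ≤ ν := fun i => le_trans
    (mk_le_of_injective (f := fun j => ⟨x (e.symm (i, j)), ⟨_, ⟨e.symm (i, j),
      by simpa [T] using j.2.1, rfl⟩, by simp [q]⟩, j.2.2⟩)
      fun a b k => Subtype.ext (Prod.ext_iff.1 (xi (Subtype.ext_iff.1 k))).2) (hV (y i))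
  have c1 : #(I ∪ (Prod.snd '' {a | x (e.symm a) ∈ U ∩ V} ∪
      ⋃ i : I, {j | i ≠ j ∧ x (e.symm (i, j)) ∉ V}) : Set _) < #G :=
    (mk_union_le _ _).trans_lt (add_lt_of_lt a0 (hI ▸ lim) ((mk_union_le _ _).trans_lt
      (add_lt_of_lt a0 ((mk_image_le.trans (mk_preimage_of_injective _ _ xi)).trans_lt hW)
      ((mk_iUnion_le _).trans_lt (mul_lt_of_lt a0 (hI ▸ lim) ((ciSup_le' fun i : I => c0 i).trans_lt hν))))))
  obtain ⟨j, hj⟩ := (ne_univ_iff_exists_notMem _).1 fun k =>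
    c1.ne ((congrArg (fun s : Set _ => #s) k).trans (by simp))
  simp only [mem_union, mem_iUnion, not_or, not_exists, mem_ofPred_eq, not_and, not_not] at hj
  have d : ∀ i : I, i ≠ j := fun i k => hj.1 (k ▸ i.2)
  refine (Order.lt_succ μ).not_ge (hI ▸ le_trans (mk_le_of_injective
    (f := fun i => ⟨x (e.symm (i, j)), ⟨_, ⟨e.symm (i, j), by simpa [T] using d i, rfl⟩, by simp [p]⟩,
      fun k => hj.2.1 ⟨(i, j), ⟨k, hj.2.2 i (d i)⟩, rfl⟩⟩)
    fun a b k => Subtype.ext (Prod.ext_iff.1 (xi (Subtype.ext_iff.1 k))).1) (hU (y j)))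

end Pool.Agent.Results.MP_08c285_gt.Regular
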